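import Mathlib

namespace Pool.Agent.H.MP_938f3b

open Filter Topology Set

def G : Type := {t : ℚ × Bool → Bool //
  ∀ A : Set (ℚ × Bool), A.Nonempty → (∀ a ∈ A, t a) → ∃ m ∈ A, ∀ a ∈ A, m.1 ≤ a.1}

instance : TopologicalSpace G := inferInstanceAs (TopologicalSpace (Subtype _))
instance : SecondCountableTopology G := IsInducing.subtypeVal.secondCountableTopology
instance : T1Space G := inferInstanceAs (T1Space (Subtype _))

instance : PartialOrder G where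
  le s t := (∀ a, s.1 a → t.1 a) ∧ ∀ a b, s.1 a → t.1 b → ¬ s.1 b → a.1 < b.1
  le_refl s := ⟨fun _ h => h, fun _ _ _ h h' => absurd h h'⟩
  le_trans r s t h k := ⟨fun a x => k.1 a (h.1 a x), fun a b x y z => by
    by_cases c : s.1 b
    · exact h.2 a b x c z
    · exact k.2 a b (h.1 a x) y c⟩
  le_antisymm s t h k := Subtype.ext (funext fun a => Bool.eq_iff_iff.2 ⟨h.1 a, k.1 a⟩)

theorem le_of {r s t : G} (h : r ≤ t) (k : s ≤ t) (e : ∀ a, r.1 a → s.1 a) : r ≤ s :=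
  ⟨e, fun a b x y z => h.2 a b x (k.1 b y) z⟩

theorem chain {r s t : G} (h : r ≤ t) (k : s ≤ t) : r ≤ s ∨ s ≤ r := by
  by_contra n
  obtain ⟨n1, n2⟩ := not_or.1 n
  obtain ⟨a, a1⟩ := not_forall.1 fun e => n1 (le_of h k e)
  obtain ⟨b, b1⟩ := not_forall.1 fun e => n2 (le_of k h e)
  rw [Classical.not_imp] at a1 b1
  exact (h.2 a b a1.1 (k.1 b b1.1) b1.2).not_gt (k.2 b a b1.1 (h.1 a a1.1) a1.2)

theorem near (t : G) (a : ℚ × Bool) : ∀ᶠ r : G in 𝓝 t, r.1 a = t.1 a :=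
  ((continuous_apply a).comp continuous_subtype_val).continuousAt.eventually
    ((isOpen_discrete {t.1 a}).mem_nhds rfl)

theorem t1 {s t : G} (h : ¬ t ≤ s) : ∀ᶠ r in 𝓝 t, ¬ r ≤ s := by
  rcases not_and_or.1 h with h | h
  · obtain ⟨a, ha⟩ := not_forall.1 h
    exact (near t a).mono fun r e k => ha (e ▸ k.1 a)
  · push Not at h
    obtain ⟨a, b, h1, h2, h3, h4⟩ := h
    filter_upwards [near t a, near t b] with r e e' k
    exact (k.2 a b (e ▸ h1) h2 (e' ▸ h3)).not_ge h4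

theorem t2 {s t : G} (h : t ≤ s) : ∀ᶠ r in 𝓝 t, r ≤ s → r ≤ t := by
  rcases eq_empty_or_nonempty {a | s.1 a ∧ ¬ t.1 a} with e | e
  · refine .of_forall fun r k => le_of k h fun a x => by_contra fun y => ?_
    exact (eq_empty_iff_forall_notMem.1 e a) ⟨k.1 a x, y⟩
  · obtain ⟨m, m1, m2⟩ := s.2 _ e fun a x => x.1
    exact (near t m).mono fun r e k => le_of k h fun a x => by_contra fun y =>
      (k.2 a m x m1.1 (e ▸ m1.2)).not_ge (m2 a ⟨k.1 a x, y⟩)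

def col (u : G) : Prop := ∃ a, u.1 a ∧ a.2 = true ∧ ∀ b, u.1 b → b.1 ≤ a.1

theorem tooth (t : G) (a : ℚ × Bool) (h : ∀ b, t.1 b → b.1 < a.1) :
    ∃ u : G, t ⋖ u ∧ ∀ b, u.1 b ↔ t.1 b ∨ b = a := by
  have n : ¬ t.1 a := fun x => (h a x).false
  let u : G := ⟨fun b => t.1 b || b = a, fun A hA k => by
    rcases eq_empty_or_nonempty {b ∈ A | t.1 b} with e | e
    · have : ∀ b ∈ A, b = a := fun b x => by
        simpa [show ¬ t.1 b from fun y => eq_empty_iff_forall_notMem.1 e b ⟨x, y⟩] using k b x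
      obtain ⟨m, hm⟩ := hA
      exact ⟨m, hm, fun b x => by rw [this m hm, this b x]⟩
    · obtain ⟨m, m1, m2⟩ := t.2 _ e fun a x => x.2
      refine ⟨m, m1.1, fun b x => ?_⟩
      rcases Bool.or_eq_true_iff.1 (k b x) with y | y
      · exact m2 b ⟨x, y⟩
      · rw [of_decide_eq_true y]
        exact (h m m1.2).le⟩
  have e : ∀ b, u.1 b ↔ t.1 b ∨ b = a := fun b => by simp [u]
  have l : t ≤ u := ⟨fun b x => (e b).2 (.inl x), fun b c x y z => by
    rw [((e c).1 y).resolve_left z]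
    exact h b x⟩
  refine ⟨u, ⟨l.lt_of_ne fun k => n (k ▸ (e a).2 (.inr rfl)), fun v h1 h2 => ?_⟩, e⟩
  by_cases c : v.1 a
  · exact h2.not_ge (le_of le_rfl h2.le fun b x => ((e b).1 x).elim (h1.le.1 b) (· ▸ c))
  · exact h1.not_ge (le_of h2.le l fun b x => ((e b).1 (h2.le.1 b x)).resolve_right
      fun y => c (y ▸ x))

theorem bad (μ : G → ℝ) (h1 : Monotone μ) (h2 : BddAbove (range μ)) : ∃ t, ∀ ε > 0,
    {u | t ⋖ u ∧ col u ∧ μ u < μ t + ε}.Infinite ∧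
      {u | t ⋖ u ∧ ¬ col u ∧ μ u < μ t + ε}.Infinite := by
  let P := {p : G × ℚ // ∃ c < p.2, ∀ a, p.1.1 a → a.1 ≤ c}
  have : ∀ (k : ℕ) (p : P), ∃ q : P, p.1.1 ≤ q.1.1 ∧ q.1.2 < p.1.2 ∧ ∀ v, p.1.1 ≤ v →
      (∃ c < p.1.2, ∀ a, v.1 a → a.1 ≤ c) → μ v < μ q.1.1 + 1 / ((k : ℝ) + 1) := fun k p => by
    let S := μ '' {v | p.1.1 ≤ v ∧ ∃ c < p.1.2, ∀ a, v.1 a → a.1 ≤ c}
    obtain ⟨_, ⟨v, ⟨v1, c, c1, c2⟩, rfl⟩, h⟩ := exists_lt_of_lt_csSup (s := S)
      ⟨_, _, ⟨le_rfl, p.2⟩, rfl⟩ (sub_lt_self _ (show 0 < 1 / ((k : ℝ) + 1) by positivity))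
    obtain ⟨b, b1, b2⟩ := exists_between c1
    refine ⟨⟨(v, b), c, b1, c2⟩, v1, b2, fun w w1 w2 => ?_⟩
    linarith [le_csSup (s := S) (h2.mono (image_subset_range _ _)) ⟨w, ⟨w1, w2⟩, rfl⟩]
  choose f f1 f2 f3 using this
  let p : ℕ → P := fun n => Nat.rec (motive := fun _ => P)
    ⟨(⟨fun _ => false, fun A ⟨a, h⟩ k => by simpa using k a h⟩, 1), 0, one_pos, by simp⟩ f n
  have p1 : Monotone fun n => (p n).1.1 := monotone_nat_of_le_succ fun n => f1 n _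
  have p2 : StrictAnti fun n => (p n).1.2 := strictAnti_nat_of_succ_lt fun n => f2 n _
  have up : ∀ n m a b, (p n).1.1.1 a → (p m).1.1.1 b → ¬ (p n).1.1.1 b → a.1 < b.1 :=
    fun n m a b x y z => (p1 (le_max_left n m)).2 a b x ((p1 (le_max_right n m)).1 b y) z
  classical
  let t : G := ⟨fun a => ∃ n, (p n).1.1.1 a, fun A ⟨a, ha⟩ k => by
    obtain ⟨n, hn⟩ := of_decide_eq_true (k a ha)
    obtain ⟨m, m1, m2⟩ := (p n).1.1.2 {b ∈ A | (p n).1.1.1 b} ⟨a, ha, hn⟩ fun a x => x.2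
    refine ⟨m, m1.1, fun b x => ?_⟩
    by_cases c : (p n).1.1.1 b
    · exact m2 b ⟨x, c⟩
    · obtain ⟨l, hl⟩ := of_decide_eq_true (k b x)
      exact (up n l m b m1.2 hl c).le⟩
  have e : ∀ a, t.1 a ↔ ∃ n, (p n).1.1.1 a := fun a => decide_eq_true_iff
  have l : ∀ n, (p n).1.1 ≤ t := fun n => ⟨fun a x => (e a).2 ⟨n, x⟩, fun a b x y z =>
    ((e b).1 y).elim fun m y => up n m a b x y z⟩
  have b : ∀ n a, t.1 a → a.1 < (p n).1.2 := fun n a x => by
    obtain ⟨m, x⟩ := (e a).1 x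
    obtain ⟨c, c1, c2⟩ := (p (max n m)).2
    exact (c2 a ((p1 (le_max_right n m)).1 a x)).trans_lt
      (c1.trans_le (p2.antitone (le_max_left n m)))
  choose u u1 u2 using fun n i => tooth t ((p (n + 1)).1.2, i) (b (n + 1))
  have c : ∀ n i, col (u n i) ↔ i = true := fun n i => ⟨fun ⟨a, a1, a2, a3⟩ => by
    rcases (u2 n i a).1 a1 with x | rfl
    · exact absurd (b (n + 1) a x) (a3 _ ((u2 n i _).2 (.inr rfl))).not_gt
    · exact a2, fun x => ⟨_, (u2 n i _).2 (.inr rfl), x, fun a y => ((u2 n i a).1 y).elim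
      (fun y => (b (n + 1) a y).le) fun y => y ▸ le_rfl⟩⟩
  have k : ∀ ε > 0, ∀ i, {v | t ⋖ v ∧ (col v ↔ i = true) ∧ μ v < μ t + ε}.Infinite := by
    intro ε hε i
    obtain ⟨N, hN⟩ := exists_nat_one_div_lt hε
    refine infinite_of_injective_forall_mem (f := fun n => u (N + n) i) (fun n m h => ?_)
      fun n => ⟨u1 _ _, c _ _, ?_⟩
    · have := (u2 (N + n) i _).2 (.inr rfl)
      rw [show u (N + n) i = u (N + m) i from h, u2] at this
      rcases this with x | x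
      · exact (b (N + n + 1) _ x).false.elim
      · simpa using p2.injective (a₁ := N + n + 1) (a₂ := N + m + 1) (congrArg Prod.fst x)
    · have := f3 (N + n) _ (u (N + n) i) ((l _).trans (u1 _ _).le) ⟨_, f2 _ _, fun a y =>
        ((u2 _ i a).1 y).elim (fun y => (b (N + n + 1) a y).le) fun y => y ▸ le_rfl⟩
      have := h1 (l (N + n + 1))
      have : 1 / (((N + n : ℕ) : ℝ) + 1) ≤ 1 / ((N : ℝ) + 1) := by
        gcongr
        simp
      change μ _ < μ (p (N + n + 1)).1.1 + _ at *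
      linarith
  exact ⟨t, fun ε hε => ⟨by simpa using k ε hε true, by simpa using k ε hε false⟩⟩

end Pool.Agent.H.MP_938f3b
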