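import Pool.Agent.H.MP_938f3b.A

namespace Pool.Agent.H.MP_938f3b

open Filter Topology Set
open scoped ENNReal Classical

theorem supl {P : Type} [Nonempty P] {f g : P → ℝ} {D : ℝ} (hg : BddAbove (range g))
    (h : ∀ p, f p ≤ g p + D) : ⨆ p, f p ≤ (⨆ p, g p) + D :=
  ciSup_le fun p => (h p).trans (by gcongr; exact le_ciSup hg p)

theorem lemE {X P : Type} [NormedAddCommGroup X] [TopologicalSpace P] [SecondCountableTopology P]
    [Nonempty P] (H : X → P → ℝ) (h0 : ∀ x p, 0 ≤ H x p) (hb : ∀ x, BddAbove (range (H x)))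
    (h1 : ∀ x y p, H x p ≤ H y p + 2 * ‖x - y‖) {D : Set X}
    (h2 : ∀ x ∈ D, ∀ p, ∀ᶠ r in 𝓝 p, H x r ≤ H x p) :
    ∃ ψ : TopologicalSpace.countableBasis P → X → ℝ, (∀ j x y, ψ j x ≤ ψ j y + 2 * ‖x - y‖) ∧
      ∀ x, ∀ y ∈ closure D, ∀ c, (∀ j, ψ j x - ψ j y ≤ c) → ∀ p, H x p - H y p ≤ c := by
  have b : ∀ (A : Set P) x, BddAbove (range fun r => if r ∈ A then H x r else 0) := fun A x => by
    obtain ⟨c, hc⟩ := hb x
    refine ⟨c, forall_mem_range.2 fun r => le_trans ?_ (hc ⟨r, rfl⟩)⟩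
    split_ifs <;> simp [h0]
  refine ⟨fun j x => ⨆ r, if r ∈ j.1 then H x r else 0, fun j x y => supl (b _ _) fun r => ?_,
    fun x y hy c h p => le_of_forall_pos_le_add fun ε hε => ?_⟩
  · split_ifs <;> simp [h1]
  obtain ⟨z, hz, k⟩ := Metric.mem_closure_iff.1 hy (ε / 4) (by positivity)
  obtain ⟨A, h3, h4, h5⟩ := (TopologicalSpace.isBasis_countableBasis P).mem_nhds_iff.1 (h2 z hz p)
  have := h ⟨A, h3⟩
  have k1 := le_ciSup (b A x) p
  rw [if_pos h4] at k1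
  rw [dist_eq_norm] at k
  have k2 : (⨆ r, if r ∈ A then H y r else 0) ≤ H y p + ε := ciSup_le fun r => by
    split_ifs with a
    · have := h1 z y p
      rw [norm_sub_rev] at this
      linarith [h1 y z r, show H z r ≤ H z p from h5 a]
    · linarith [h0 y p]
  linarith

abbrev V := lp (fun _ : G × Bool => ℝ) ∞

noncomputable def ind (S : G × Bool → Prop) : V := ⟨fun p => if S p then 1 else 0,
  memℓp_infty ⟨1, forall_mem_range.2 fun p => by split_ifs <;> simp⟩⟩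

theorem co (v : V) (p : G × Bool) : |v p| ≤ ‖v‖ := lp.norm_apply_le_norm ENNReal.top_ne_zero v p

def E (t : G) : G × Bool → Prop
  | (r, false) => r ≤ t
  | (r, true) => ∃ u, (r ⋖ u ∧ col u) ∧ u ≤ t

theorem cov {r u v s : G} (h : r ⋖ u) (k : r ⋖ v) (h' : u ≤ s) (k' : v ≤ s) : u = v :=
  (chain h' k').elim (fun a => (k.eq_or_eq h.le a).resolve_left h.ne')
    fun a => ((h.eq_or_eq k.le a).resolve_left k.ne').symm

theorem E1 {s t : G} (h : s ≤ t) {p : G × Bool} (k : ¬ s ≤ p.1) : E t p ↔ E s p := by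
  obtain ⟨r, _ | _⟩ := p
  · exact ⟨fun a => (chain a h).resolve_right k, fun a => le_trans a h⟩
  · refine exists_congr fun u => and_congr_right fun a => ⟨fun b => ?_, fun b => b.trans h⟩
    refine (chain b h).elim id fun c => ?_
    exact ((a.1.eq_or_eq ((chain (a.1.le.trans b) h).resolve_right k) c).resolve_left
      fun e => k e.le).ge

theorem E2 {t u : G} (h : t ⋖ u) {p : G × Bool} (k : ¬ u ≤ p.1) :
    (E u p ↔ E t p ∨ (col u ∧ p = (t, true))) := by
  have a : ∀ r, r ≤ u → r ≤ t ∨ r = u := fun r a => (chain a h.le).elim .inl fun b =>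
    (h.eq_or_eq b a).imp_left Eq.le
  obtain ⟨r, _ | _⟩ := p
  · exact ⟨fun b => .inl ((a r b).resolve_right fun e => k e.ge),
      fun b => le_trans (b.resolve_right (by simp)) h.le⟩
  · refine ⟨fun ⟨w, b, c⟩ => (a w c).imp (fun d => ⟨w, b, d⟩) ?_, ?_⟩
    · rintro rfl
      refine ⟨b.2, Prod.ext ?_ rfl⟩
      exact (b.1.eq_or_eq ((a r b.1.le).resolve_right b.1.ne) h.le).resolve_right h.ne |>.symm
    · rintro (⟨w, b, c⟩ | ⟨b, c⟩)
      · exact ⟨w, b, c.trans h.le⟩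
      · cases c
        exact ⟨u, ⟨h, b⟩, le_rfl⟩

def D0 : Submodule ℝ V where
  carrier := {v | (∀ r, v (r, false) = 0) ∧ ∀ᶠ r in cofinite, v (r, true) = 0}
  add_mem' h k := ⟨fun r => by simp [h.1, k.1], (h.2.and k.2).mono fun r a => by simp [a.1, a.2]⟩
  zero_mem' := ⟨fun _ => rfl, .of_forall fun _ => rfl⟩
  smul_mem' c v h := ⟨fun r => by simp [h.1], h.2.mono fun r a => by simp [a]⟩

noncomputable def D : Submodule ℝ V := Submodule.span ℝ (range fun t => ind (E t)) ⊔ D0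

theorem rep {v : V} (h : v ∈ D) : ∃ (F : Finset G) (c : G → ℝ),
    (∀ r, v (r, false) = ∑ s ∈ F, if r ≤ s then c s else 0) ∧
      ∀ᶠ r in cofinite, v (r, true) = ∑ s ∈ F, if E s (r, true) then c s else 0 := by
  obtain ⟨a, ha, b, hb, rfl⟩ := Submodule.mem_sup.1 h
  obtain ⟨c, rfl⟩ := Finsupp.mem_span_range_iff_exists_finsupp.1 ha
  have e : ∀ p, ((c.sum fun i a => a • ind (E i)) + b) p =
      (∑ s ∈ c.support, if E s p then c s else 0) + b p := fun p => by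
    rw [lp.coeFn_add, Pi.add_apply, Finsupp.sum, lp.coeFn_sum, Finset.sum_apply]
    simp [ind]
  refine ⟨c.support, c, fun r => ?_, hb.2.mono fun r k => ?_⟩
  · rw [e, hb.1, add_zero]
    rfl
  · rw [e, k, add_zero]

theorem usc {v : V} (h : v ∈ D) (t : G) :
    ∀ᶠ r in 𝓝 t, max (v (r, false)) 0 ≤ max (v (t, false)) 0 := by
  obtain ⟨F, c, h, -⟩ := rep h
  have : ∀ᶠ r in 𝓝 t, ∀ s ∈ F, r ≤ s → t ≤ s ∧ r ≤ t := (eventually_all_finset F).2 fun s _ => by
    by_cases a : t ≤ s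
    · exact (t2 a).mono fun r b c => ⟨a, b c⟩
    · exact (t1 a).mono fun r b c => absurd c b
  refine this.mono fun r k => ?_
  rw [h, h]
  by_cases a : r ≤ t
  · rw [Finset.sum_congr rfl fun s hs => if_congr ⟨fun b => (k s hs b).1, a.trans⟩ rfl rfl]
  · rw [Finset.sum_eq_zero fun s hs => if_neg fun b => a (k s hs b).2]
    simp

noncomputable def M (v : V) (r : G) : ℝ := ⨆ u, if r ⋖ u ∧ col u then max (v (u, false)) 0 else 0

instance : Nonempty G := ⟨⟨fun _ => false, fun _ ⟨a, h⟩ k => by simpa using k a h⟩⟩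

theorem br (s s' : G) : {r | ∃ u v, r ⋖ u ∧ r ⋖ v ∧ u ≤ s ∧ v ≤ s' ∧ u ≠ v}.Subsingleton := by
  have : ∀ r r' u v u' v', r ⋖ u → r ⋖ v → u ≤ s → v ≤ s' → u ≠ v → r' ⋖ u' → r' ⋖ v' → u' ≤ s →
      v' ≤ s' → r ≤ r' → r = r' := fun r r' u v u' v' a b c d e a' b' c' d' h => by
    by_contra n
    have k : ∀ u s, r ⋖ u → u ≤ s → r' ≤ s → u ≤ r' := fun u s a c c' =>
      (chain c c').elim id fun x => ((a.eq_or_eq h x).resolve_left (Ne.symm n)).ge
    exact e (cov a b (k u s a c (a'.le.trans c')) (k v s' b d (b'.le.trans d')))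
  rintro r ⟨u, v, a, b, c, d, e⟩ r' ⟨u', v', a', b', c', d', e'⟩
  exact (chain (a.le.trans c) (a'.le.trans c')).elim (this _ _ _ _ _ _ a b c d e a' b' c' d')
    fun h => (this _ _ _ _ _ _ a' b' c' d' e' a b c d h).symm

theorem fin {v : V} (h : v ∈ D) : ∀ᶠ r in cofinite, max (v (r, true)) 0 = M v r := by
  obtain ⟨F, c, h, h'⟩ := rep h
  have : ∀ᶠ r in cofinite, ∀ s ∈ F, ∀ s' ∈ F, ∀ u v, r ⋖ u → r ⋖ v → u ≤ s → v ≤ s' → u = v :=
    (eventually_all_finset F).2 fun s _ => (eventually_all_finset F).2 fun s' _ =>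
      mem_of_superset (br s s').finite.compl_mem_cofinite fun r a u v b c d e =>
        by_contra fun n => a ⟨u, v, b, c, d, e, n⟩
  filter_upwards [this, h'] with r k e
  rw [e, M]
  simp only [h]
  by_cases a : ∃ u, (r ⋖ u ∧ col u) ∧ ∃ s ∈ F, u ≤ s
  · obtain ⟨u, a, s, hs, b⟩ := a
    rw [Finset.sum_congr rfl fun s' hs' => if_congr (Q := u ≤ s')
      ⟨fun ⟨w, x, y⟩ => k s hs s' hs' u w a.1 x.1 b y ▸ y, fun x => ⟨u, a, x⟩⟩ rfl rfl]
    have l : ∀ w, (if r ⋖ w ∧ col w then max (∑ s ∈ F, if w ≤ s then c s else 0) 0 else 0) ≤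
        max (∑ s ∈ F, if u ≤ s then c s else 0) 0 := fun w => by
      split_ifs with x
      · by_cases y : w = u
        · rw [y]
        · rw [Finset.sum_eq_zero fun s' hs' => if_neg fun z => y (k s' hs' s hs w u x.1 a.1 z b)]
          simp
      · simp
    refine le_antisymm (le_ciSup_of_le ⟨_, forall_mem_range.2 l⟩ u ?_) (ciSup_le l)
    rw [if_pos a]
  · rw [Finset.sum_eq_zero fun s hs => if_neg fun ⟨u, x, y⟩ => a ⟨u, x, s, hs, y⟩, max_self,
      iSup_congr (g := fun _ => 0) fun u => ?_, ciSup_const]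
    split_ifs with x
    · rw [Finset.sum_eq_zero fun s hs => if_neg fun y => a ⟨u, x, s, hs, y⟩, max_self]
    · rfl

end Pool.Agent.H.MP_938f3b
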