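import Pool.Agent.H.MP_938f3b.B

namespace Pool.Agent.H.MP_938f3b

open Filter Topology Set
open scoped ENNReal Classical

theorem mx {a b c : ℝ} (h : a ≤ b + c) (c0 : 0 ≤ c) : max a 0 ≤ max b 0 + c :=
  max_le (h.trans (by gcongr; exact le_max_left _ _)) (by positivity)

theorem co2 (v w : V) (p : G × Bool) : max (v p) 0 ≤ max (w p) 0 + ‖v - w‖ :=
  mx (by simpa [add_comm] using (le_abs_self _).trans (co (v - w) p)) (norm_nonneg _)

theorem Ml {v w : V} {c : ℝ} (c0 : 0 ≤ c)
    (h : ∀ u, max (v (u, false)) 0 ≤ max (w (u, false)) 0 + c) (r : G) : M v r ≤ M w r + c := by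
  refine supl ⟨‖w‖, forall_mem_range.2 fun u => ?_⟩ fun u => ?_
  · split_ifs
    · simpa using co2 w 0 (u, false)
    · simp
  · split_ifs <;> simp [h, c0]

noncomputable def H : Option Bool → V → G → ℝ
  | none, v, r => max (v (r, false)) 0
  | some true, v, r => max (max (v (r, true)) 0 - M v r) 0
  | some false, v, r => max (M v r - max (v (r, true)) 0) 0

theorem H0 (k : Option Bool) (v : V) (r : G) : 0 ≤ H k v r := by
  rcases k with _ | _ | _ <;> exact le_max_right _ _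

theorem H1 (k : Option Bool) (v w : V) (r : G) : H k v r ≤ H k w r + 2 * ‖v - w‖ := by
  have a := Ml (norm_nonneg _) (fun u => co2 v w _) r
  have b := Ml (norm_nonneg _) (fun u => co2 w v _) r
  have c := co2 w v (r, true)
  rw [norm_sub_rev] at b c
  rcases k with _ | _ | _
  · exact (co2 v w _).trans (by simp only [H]; linarith [norm_nonneg (v - w)])
  · exact mx (by linarith) (by positivity)
  · exact mx (by linarith [co2 v w (r, true)]) (by positivity)

theorem H2 (k : Option Bool) (v : V) (h : v ∈ D) (t : G) : ∀ᶠ r in 𝓝 t, H k v r ≤ H k v t := by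
  have : ∀ᶠ r in 𝓝 t, r = t ∨ max (v (r, true)) 0 = M v r :=
    mem_of_superset (((fin h).sdiff (t := {t})).isClosed.isOpen_compl.mem_nhds (by simp))
      fun r a => by_contra fun n => a ⟨(not_or.1 n).2, (not_or.1 n).1⟩
  rcases k with _ | _ | _
  · exact usc h t
  all_goals
    refine this.mono fun r a => a.elim (· ▸ le_rfl) fun a => le_trans ?_ (H0 _ _ _)
    simp [H, a]

theorem emb : ∃ f : D.topologicalClosure → lp (fun _ : ℕ => ℝ) ∞, ∃ K₁ K₂ : NNReal,
    LipschitzWith K₁ f ∧ AntilipschitzWith K₂ f := by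
  choose ψ ψ1 ψ2 using fun k => lemE (H k) (H0 k) (fun v => ⟨2 * ‖v - 0‖, forall_mem_range.2
    fun r => (H1 k v 0 r).trans (by rcases k with _ | _ | _ <;> simp [H, M])⟩) (H1 k) (H2 k)
  haveI := (TopologicalSpace.countable_countableBasis G).to_subtype
  haveI : Nonempty (TopologicalSpace.countableBasis G) := by
    obtain ⟨A, h, -⟩ := (TopologicalSpace.isBasis_countableBasis G).exists_subset_of_mem_open
      (mem_univ (Classical.arbitrary G)) isOpen_univ
    exact ⟨⟨A, h⟩⟩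
  obtain ⟨ν, hν⟩ := exists_surjective_nat (Option Bool × TopologicalSpace.countableBasis G × Bool)
  let u : ℕ → V → ℝ := fun j z => ψ (ν j).1 (ν j).2.1 (if (ν j).2.2 then z else -z)
  have u1 : ∀ j x y, |u j x - u j y| ≤ 2 * ‖x - y‖ := fun j x y => by
    simp only [u]
    refine abs_sub_le_iff.2 ⟨(sub_le_iff_le_add'.2 (ψ1 _ _ _ _)).trans_eq ?_,
      (sub_le_iff_le_add'.2 (ψ1 _ _ _ _)).trans_eq ?_⟩ <;> split_ifs <;>
      simp only [neg_sub_neg, norm_sub_rev x y]
  let φ : V → lp (fun _ : ℕ => ℝ) ∞ := fun z => ⟨fun j => u j z - u j 0,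
    memℓp_infty ⟨2 * ‖z - 0‖, by rintro _ ⟨j, rfl⟩; exact u1 j z 0⟩⟩
  have φ1 : ∀ x y j, (φ x - φ y) j = u j x - u j y := fun x y j => sub_sub_sub_cancel_right _ _ _
  refine ⟨fun x => φ x, 2, 6, LipschitzWith.of_dist_le_mul fun x y => ?_,
    AntilipschitzWith.of_le_mul_dist fun x y => ?_⟩
  · rw [dist_eq_norm, dist_eq_norm]
    exact lp.norm_le_of_forall_le (by positivity) fun j => by rw [φ1]; exact u1 j x y
  rw [dist_eq_norm, dist_eq_norm]
  set c := ‖φ x - φ y‖
  have c0 : 0 ≤ c := norm_nonneg _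
  have k : ∀ k j s, |ψ k j (if s = true then x else -x) - ψ k j (if s = true then y else -y)| ≤ c :=
    fun k j s => by
      obtain ⟨n, hn⟩ := hν (k, j, s)
      have := lp.norm_apply_le_norm ENNReal.top_ne_zero (φ x - φ y) n
      rw [φ1] at this
      simpa only [u, hn, Real.norm_eq_abs] using this
  have p : ∀ a b : D.topologicalClosure, (∀ k j, |ψ k j a - ψ k j b| ≤ c) → ∀ p,
      max (a.1 p) 0 - max (b.1 p) 0 ≤ 3 * c := fun a b h ⟨r, i⟩ => by
    have h1 := fun k => ψ2 k a b b.2 c fun j => (abs_sub_le_iff.1 (h k j)).1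
    have h2 := fun k => ψ2 k b a a.2 c fun j => (abs_sub_le_iff.1 (h k j)).2
    cases i
    · exact (h1 none r).trans (by linarith)
    · have := Ml c0 (fun u => sub_le_iff_le_add'.1 (h1 none u)) r
      have e : ∀ v : V, H (some true) v r - H (some false) v r = max (v (r, true)) 0 - M v r :=
        fun v => by rw [H, H, ← neg_sub _ (M v r), max_zero_sub_max_neg_zero_eq_self]
      linarith [e a, e b, h1 (some true) r, h2 (some false) r]
  refine lp.norm_le_of_forall_le (f := x.1 - y.1) (by positivity) fun q => ?_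
  have h1 := p x y (fun a j => k a j true) q
  have h2 := p y x (fun a j => abs_sub_comm (α := ℝ) _ _ ▸ k a j true) q
  have h3 := p (-x) (-y) (fun a j => k a j false) q
  have h4 := p (-y) (-x) (fun a j => abs_sub_comm (α := ℝ) _ _ ▸ k a j false) q
  have e1 := max_zero_sub_max_neg_zero_eq_self (x.1 q)
  have e2 := max_zero_sub_max_neg_zero_eq_self (y.1 q)
  change max (-x.1 q) 0 - max (-y.1 q) 0 ≤ _ at h3
  change max (-y.1 q) 0 - max (-x.1 q) 0 ≤ _ at h4
  change |x.1 q - y.1 q| ≤ 6 * c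
  exact abs_le.2 ⟨by linarith, by linarith⟩

theorem nsc (N : D.topologicalClosure → ℝ) {c C : ℝ} (c0 : 0 < c)
    (n0 : ∀ x, c * ‖x‖ ≤ N x ∧ N x ≤ C * ‖x‖) (n1 : ∀ x y, N (x + y) ≤ N x + N y)
    (n2 : ∀ (r : ℝ) x, N (r • x) = |r| * N x) :
    ∃ x y, N x = 1 ∧ N y = 1 ∧ x ≠ y ∧ 1 ≤ N ((1 / 2 : ℝ) • (x + y)) := by
  let e : G → D.topologicalClosure := fun t => ⟨ind (E t), D.le_topologicalClosure
    (Submodule.mem_sup_left (Submodule.subset_span ⟨t, rfl⟩))⟩
  let d : G → D.topologicalClosure := fun t => ⟨ind (· = (t, true)), D.le_topologicalClosure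
    (Submodule.mem_sup_right ⟨fun r => by simp [ind], (eventually_cofinite_ne t).mono
      fun r h => by simp [ind, h]⟩)⟩
  have N0 : ∀ x, 0 ≤ N x := fun x => le_trans (by positivity) (n0 x).1
  let S : G → Set ℝ := fun t => N '' {x | ∀ p : G × Bool, ¬ t ≤ p.1 → x.1 p = (e t).1 p}
  have b : ∀ t, BddBelow (S t) := fun t => ⟨0, by rintro _ ⟨x, -, rfl⟩; exact N0 x⟩
  have ne : ∀ t, (S t).Nonempty := fun t => ⟨_, e t, fun _ _ => rfl, rfl⟩
  have e1 : ∀ t, ‖e t‖ ≤ 1 := fun t => lp.norm_le_of_forall_le (f := ind _) zero_le_one fun p => by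
    simp only [ind]
    split_ifs <;> simp
  obtain ⟨t, ht⟩ := bad (fun t => sInf (S t)) (fun s t h => csInf_le_csInf (b _) (ne _)
    (image_mono fun x k p a => (k p fun b => a (h.trans b)).trans (by simp [e, ind, E1 h a])))
    ⟨|C|, forall_mem_range.2 fun t => (csInf_le (b t) ⟨e t, fun _ _ => rfl, rfl⟩).trans
      ((n0 _).2.trans (by nlinarith [le_abs_self C, e1 t, norm_nonneg (e t), abs_nonneg C]))⟩
  set m := sInf (S t)
  have m0 : 0 ≤ m := le_csInf (ne t) (by rintro _ ⟨x, -, rfl⟩; exact N0 x)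
  have av : ∀ z (Q : G → Prop), (∀ ε > 0, {u | t ⋖ u ∧ Q u ∧ sInf (S u) < m + ε}.Infinite) →
      (∀ u, t ⋖ u → Q u → ∀ p : G × Bool, ¬ u ≤ p.1 → (e u).1 p = z.1 p) → N z ≤ m := by
    refine fun z Q h k => le_of_forall_pos_le_add fun ε hε => ?_
    choose! x x1 x2 using fun u (a : sInf (S u) < m + ε) => show ∃ x, (∀ p : G × Bool, ¬ u ≤ p.1 →
      x.1 p = (e u).1 p) ∧ N x < m + ε by
        obtain ⟨_, ⟨x, a, rfl⟩, b⟩ := exists_lt_of_csInf_lt (ne u) a
        exact ⟨x, a, b⟩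
    refine le_of_forall_pos_le_add fun η hη => ?_
    obtain ⟨n, hn⟩ := exists_nat_gt (|C| * ((m + ε) / c + ‖z‖) / η)
    obtain ⟨T, T1, T2⟩ := (h ε hε).exists_subset_card_eq n
    have n0' : (0 : ℝ) < n := lt_of_le_of_lt (by positivity) hn
    have y : ‖∑ u ∈ T, (z - x u)‖ ≤ (m + ε) / c + ‖z‖ := by
      refine lp.norm_le_of_forall_le (f := (∑ u ∈ T, (z - x u)).1) (by positivity) fun p => ?_
      have z0 : ∀ u ∈ T, ¬ u ≤ p.1 → (z.1 - (x u).1) p = 0 := fun u a b => sub_eq_zero.2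
        ((x1 u (T1 a).2.2 p b).trans (k u (T1 a).1 (T1 a).2.1 p b)).symm
      simp only [Submodule.coe_sum, Submodule.coe_sub, lp.coeFn_sum, Finset.sum_apply]
      by_cases a : ∃ u ∈ T, u ≤ p.1
      · obtain ⟨u, a, a'⟩ := a
        rw [Finset.sum_eq_single_of_mem u a fun v b n => z0 v b fun b' =>
          n (cov (T1 b).1 (T1 a).1 b' a')]
        refine (co _ p).trans ((norm_sub_le _ _).trans ?_)
        have : ‖x u‖ ≤ (m + ε) / c := by
          rw [le_div_iff₀' c0]
          exact (n0 _).1.trans (x2 u (T1 a).2.2).le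
        exact (add_comm _ _).trans_le (add_le_add this le_rfl)
      · rw [Finset.sum_eq_zero fun u b => z0 u b fun b' => a ⟨u, b, b'⟩, norm_zero]
        positivity
    have h1 := n1 (∑ u ∈ T, x u) (∑ u ∈ T, (z - x u))
    rw [← Finset.sum_add_distrib, Finset.sum_congr rfl fun u _ => add_sub_cancel (x u) z,
      Finset.sum_const, T2, ← Nat.cast_smul_eq_nsmul ℝ, n2, abs_of_pos n0'] at h1
    have h2 := (Finset.le_sum_of_subadditive N (by simpa using (n0 0).2) n1 T x).trans
      (Finset.sum_le_sum fun u a => (x2 u (T1 a).2.2).le)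
    rw [Finset.sum_const, T2, nsmul_eq_mul] at h2
    have h3 := (n0 (∑ u ∈ T, (z - x u))).2.trans (mul_le_mul (le_abs_self C) y (norm_nonneg _)
      (abs_nonneg _))
    rw [div_lt_iff₀ hη] at hn
    exact le_of_mul_le_mul_left (by linarith) n0'
  have lo : ∀ a : ℝ, m ≤ N (e t + a • d t) := fun a => csInf_le (b t) ⟨_, fun p h => by
    simp [d, ind, show p ≠ (t, true) by rintro rfl; exact h le_rfl], rfl⟩
  have nE : ¬ E t (t, true) := fun ⟨u, a, b⟩ => a.1.lt.not_ge b
  have h1 : N (e t) = m := le_antisymm (av _ _ (fun ε h => (ht ε h).2) fun u a b p k => by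
    simp [e, ind, E2 a k, b]) (by simpa using lo 0)
  have h2 : N (e t + d t) = m := le_antisymm (av _ _ (fun ε h => (ht ε h).1) fun u a b p k => by
    have := E2 a k
    by_cases h : p = (t, true)
    · subst h
      simp [e, d, ind, this, b, nE]
    · simp [e, d, ind, this, h]) (by simpa using lo 1)
  have mp : 0 < m := h1 ▸ lt_of_lt_of_le (mul_pos c0 (lt_of_lt_of_le (by simp [ind, E])
    (co (ind (E t)) (t, false)))) (n0 (e t)).1
  have i := inv_pos.2 mp
  refine ⟨m⁻¹ • e t, m⁻¹ • (e t + d t), ?_, ?_, fun h => ?_, ?_⟩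
  · rw [n2, h1, abs_of_pos i, inv_mul_cancel₀ mp.ne']
  · rw [n2, h2, abs_of_pos i, inv_mul_cancel₀ mp.ne']
  · have := congrArg (fun x : D.topologicalClosure => x.1 (t, true))
      (left_eq_add.1 (smul_right_injective _ i.ne' h))
    simp [d, ind] at this
  · rw [show (1 / 2 : ℝ) • (m⁻¹ • e t + m⁻¹ • (e t + d t)) = m⁻¹ • (e t + (1 / 2 : ℝ) • d t) by
      module, n2, abs_of_pos i, le_inv_mul_iff₀ mp, mul_one]
    exact lo _

end Pool.Agent.H.MP_938f3b
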